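import Mathlib

/-!
# Periodic points of the stack-sorting map `s_T` for `T = {231, 213}` (MP_cfa423_co)

For one of the two sets of the question, `T = {231, 213}`, the only periodic points of `s_T` are the
identity and its reverse, and every permutation of `1, …, n` arrives there after at most `3 n` steps.

Proof. A stack (read from top to bottom) avoids `T` exactly when every entry is extreme (larger than all
or smaller than all) among itself and the entries below. Let `R(p)` be the set of the entries of `p` which
are extreme among themselves and the later entries. Then `R(p) ⊆ R(s_T(p))`. The first entry of `p` is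
the last entry of `s_T(p)`; so if `R(p) = R(s_T(p))` then it is extreme in `p`. If `R` is the same for
`p`, `q = s_T(p)`, `s_T(q)`, `s_T(s_T(q))`, the first entries of `p`, `q`, `s_T(q)` are extreme; if an entry
were popped early in `q`, the first one popped would be neither the first nor the last entry of `q`, and
there would be three extreme entries. So nothing is popped early, and `q` is monotone.
-/

set_option autoImplicit false

namespace Pool.Agent.Results.MP_cfa423_co.OneOfTheTwoMaps

/-- The words `u` and `v` have the same length and their entries are in the same relative order. -/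
def SameOrder (u v : List ℕ) : Prop :=
  u.length = v.length ∧ ∀ i j, i < u.length → j < u.length →
    (u.getD i 0 < u.getD j 0 ↔ v.getD i 0 < v.getD j 0)

/-- The word `l` contains the pattern `σ`. -/
def Contains (σ l : List ℕ) : Prop := ∃ u : List ℕ, u.Sublist l ∧ SameOrder u σ

/-- The word `l` avoids the set `T` of patterns. -/
def Avoids (T : Set (List ℕ)) (l : List ℕ) : Prop := ∀ σ ∈ T, ¬ Contains σ l

open Classical in
/-- The output of the procedure when the stack (read from top to bottom) is the first argument and the
remaining input is the second one: push the next entry if the stack then avoids `T` (always, if the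
stack is empty: patterns have length at least two), otherwise pop; pop everything at the end. -/
noncomputable def run (T : Set (List ℕ)) : List ℕ → List ℕ → List ℕ
  | st, [] => st
  | [], a :: w => run T [a] w
  | t :: st, a :: w =>
    if Avoids T (a :: t :: st) then run T (a :: t :: st) w else t :: run T st (a :: w)
termination_by st w => 2 * w.length + st.length
decreasing_by
  all_goals simp_wf
  all_goals try omega

/-- The map `s_T`. -/
noncomputable def sT (T : Set (List ℕ)) (w : List ℕ) : List ℕ := run T [] w

/-- The entry `a` is larger than all entries of `l`, or smaller than all of them. -/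
def Ext (a : ℕ) (l : List ℕ) : Prop := (∀ x ∈ l, x < a) ∨ (∀ x ∈ l, a < x)

open Classical in
/-- The procedure with the simpler test. -/
noncomputable def rn : List ℕ → List ℕ → List ℕ
  | st, [] => st
  | [], a :: w => rn [a] w
  | t :: st, a :: w =>
    if Ext a (t :: st) then rn (a :: t :: st) w else t :: rn st (a :: w)
termination_by st w => 2 * w.length + st.length
decreasing_by
  all_goals simp_wf
  all_goals try omega

/-- The set `{231, 213}`. -/
def T₁ : Set (List ℕ) := {[2, 3, 1], [2, 1, 3]}

theorem pair_sublist {l : List ℕ} {x y : ℕ} (hx : x ∈ l) (hy : y ∈ l) (h : x ≠ y) :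
    [x, y].Sublist l ∨ [y, x].Sublist l := by
  induction l with
  | nil => simp at hx
  | cons a l ih =>
    rcases List.mem_cons.1 hx with rfl | hx'
    · rcases List.mem_cons.1 hy with rfl | hy'
      · exact absurd rfl h
      · left
        exact (List.singleton_sublist.2 hy').cons_cons _
    · rcases List.mem_cons.1 hy with rfl | hy'
      · right
        exact (List.singleton_sublist.2 hx').cons_cons _
      · rcases ih hx' hy' with h' | h'
        · exact Or.inl (h'.cons _)
        · exact Or.inr (h'.cons _)

theorem avoids_iff {a : ℕ} {st : List ℕ} (h : Avoids T₁ st) (hn : a ∉ st) :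
    Avoids T₁ (a :: st) ↔ Ext a st := by
  constructor
  · intro hA
    by_contra hE
    simp only [Ext, not_or, not_forall] at hE
    obtain ⟨⟨x, hx, hxa⟩, y, hy, hya⟩ := hE
    have hxa' : a < x := lt_of_le_of_ne (not_lt.1 hxa) (fun h => hn (h ▸ hx))
    have hya' : y < a := lt_of_le_of_ne (not_lt.1 hya) (fun h => hn (h ▸ hy))
    rcases pair_sublist hx hy (by omega) with h' | h'
    · refine hA [2, 3, 1] (by simp [T₁]) ⟨[a, x, y], h'.cons_cons a, rfl, ?_⟩
      intro i j hi hj
      simp only [List.length_cons, List.length_nil] at hi hj
      interval_cases i <;> interval_cases j <;> simp <;> omega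
    · refine hA [2, 1, 3] (by simp [T₁]) ⟨[a, y, x], h'.cons_cons a, rfl, ?_⟩
      intro i j hi hj
      simp only [List.length_cons, List.length_nil] at hi hj
      interval_cases i <;> interval_cases j <;> simp <;> omega
  · intro hE σ hσ ⟨u, hu, hlen, hord⟩
    rcases List.sublist_cons_iff.1 hu with hu' | ⟨r, rfl, hr⟩
    · exact h σ hσ ⟨u, hu', hlen, hord⟩
    · have hσ3 : σ.length = 3 := by
        rcases hσ with rfl | rfl <;> rfl
      rw [hσ3] at hlen
      obtain ⟨y, z, rfl⟩ : ∃ y z, r = [y, z] := by
        match r, hlen with
        | [y, z], _ => exact ⟨y, z, rfl⟩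
      have hy : y ∈ st := hr.subset (by simp)
      have hz : z ∈ st := hr.subset (by simp)
      have h01 := hord 0 1 (by simp) (by simp)
      have h10 := hord 1 0 (by simp) (by simp)
      have h02 := hord 0 2 (by simp) (by simp)
      have h20 := hord 2 0 (by simp) (by simp)
      rcases hσ with rfl | hσ
      · simp at h01 h10 h02 h20
        rcases hE with hE | hE
        · have := hE y hy; omega
        · have := hE z hz; omega
      · rw [Set.mem_singleton_iff] at hσ
        subst hσ
        simp at h01 h10 h02 h20
        rcases hE with hE | hE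
        · have := hE z hz; omega
        · have := hE y hy; omega

theorem avoids_nil : Avoids T₁ [] := by
  rintro σ hσ ⟨u, hu, hlen, -⟩
  have := List.sublist_nil.1 hu
  subst this
  rcases hσ with rfl | rfl <;> simp at hlen

theorem avoids_tail {t : ℕ} {st : List ℕ} (h : Avoids T₁ (t :: st)) : Avoids T₁ st :=
  fun σ hσ ⟨u, hu, hs⟩ => h σ hσ ⟨u, hu.cons _, hs⟩

theorem run_eq_rn (st w : List ℕ) (h : Avoids T₁ st) (hn : (st ++ w).Nodup) :
    run T₁ st w = rn st w := by
  induction st, w using rn.induct with
  | case1 st => simp [run, rn]
  | case2 a w ih =>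
    rw [run, rn]
    refine ih ((avoids_iff avoids_nil (by simp)).2 (Or.inl (by simp))) ?_
    simpa using hn
  | case3 t st a w hE ih =>
    have ha : a ∉ t :: st := by
      intro hm
      exact (List.disjoint_of_nodup_append hn) hm (by simp)
    have hA : Avoids T₁ (a :: t :: st) := (avoids_iff h ha).2 hE
    rw [run, rn, if_pos hE, if_pos hA]
    refine ih hA ?_
    exact (List.perm_middle (a := a) (l₁ := t :: st) (l₂ := w)).nodup_iff.1 hn
  | case4 t st a w hE ih =>
    have ha : a ∉ t :: st := by
      intro hm
      exact (List.disjoint_of_nodup_append hn) hm (by simp)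
    have hA : ¬ Avoids T₁ (a :: t :: st) := fun h' => hE ((avoids_iff h ha).1 h')
    rw [run, rn, if_neg hE, if_neg hA]
    rw [ih (avoids_tail h) ((List.nodup_cons.1 (by simpa using hn)).2)]

/-! ### Properties of `rn` -/

theorem rn_perm (st w : List ℕ) : (rn st w).Perm (st ++ w) := by
  induction st, w using rn.induct with
  | case1 st => simp [rn]
  | case2 a w ih => rw [rn]; simpa using ih
  | case3 t st a w hE ih =>
    rw [rn, if_pos hE]
    exact ih.trans (List.perm_middle (a := a) (l₁ := t :: st) (l₂ := w)).symm
  | case4 t st a w hE ih =>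
    rw [rn, if_neg hE]
    exact ih.cons t

/-- `x` occurs in `l`, and it is larger than all later entries or smaller than all later entries. -/
def RL (l : List ℕ) (x : ℕ) : Prop := ∃ u v : List ℕ, l = u ++ x :: v ∧ Ext x v

theorem rl_cons {t : ℕ} {l : List ℕ} {x : ℕ} (h : RL l x) : RL (t :: l) x := by
  obtain ⟨u, v, rfl, hv⟩ := h
  exact ⟨t :: u, v, rfl, hv⟩

theorem rl_stack (st w : List ℕ) (x : ℕ) (s₁ s₂ : List ℕ) (hst : st = s₁ ++ x :: s₂)
    (h2 : Ext x s₂) (hw : Ext x w) : RL (rn st w) x := by
  induction st, w using rn.induct generalizing s₁ with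
  | case1 st => rw [rn]; exact ⟨s₁, s₂, hst, h2⟩
  | case2 a w ih => simp at hst
  | case3 t st a w hE ih =>
    rw [rn, if_pos hE]
    refine ih (a :: s₁) (by rw [hst]; rfl) ?_
    rcases hw with hw | hw
    · exact Or.inl fun y hy => hw y (List.mem_cons_of_mem _ hy)
    · exact Or.inr fun y hy => hw y (List.mem_cons_of_mem _ hy)
  | case4 t st a w hE ih =>
    rw [rn, if_neg hE]
    cases s₁ with
    | cons t' s₁' =>
      simp only [List.cons_append, List.cons.injEq] at hst
      exact rl_cons (ih s₁' hst.2 hw)
    | nil =>
      simp only [List.nil_append, List.cons.injEq] at hst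
      obtain ⟨rfl, rfl⟩ := hst
      refine ⟨[], rn st (a :: w), rfl, ?_⟩
      have hp := rn_perm st (a :: w)
      rcases hw with hw | hw
      · left
        intro y hy
        rcases List.mem_append.1 (hp.subset hy) with hy' | hy'
        · rcases h2 with h2 | h2
          · exact h2 y hy'
          · exfalso
            apply hE
            right
            intro z hz
            have ha := hw a (by simp)
            rcases List.mem_cons.1 hz with rfl | hz
            · exact ha
            · exact ha.trans (h2 z hz)
        · exact hw y hy'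
      · right
        intro y hy
        rcases List.mem_append.1 (hp.subset hy) with hy' | hy'
        · rcases h2 with h2 | h2
          · exfalso
            apply hE
            left
            intro z hz
            have ha := hw a (by simp)
            rcases List.mem_cons.1 hz with rfl | hz
            · exact ha
            · exact (h2 z hz).trans ha
          · exact h2 y hy'
        · exact hw y hy'

theorem rl_input (st w : List ℕ) (x : ℕ) (w₁ w₂ : List ℕ) (hw : w = w₁ ++ x :: w₂)
    (h2 : Ext x w₂) : RL (rn st w) x := by
  induction st, w using rn.induct generalizing w₁ with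
  | case1 st => simp at hw
  | case2 a w ih =>
    rw [rn]
    cases w₁ with
    | nil =>
      simp only [List.nil_append, List.cons.injEq] at hw
      obtain ⟨rfl, rfl⟩ := hw
      exact rl_stack [a] w a [] [] rfl (Or.inl (by simp)) h2
    | cons b w₁' =>
      simp only [List.cons_append, List.cons.injEq] at hw
      exact ih w₁' hw.2
  | case3 t st a w hE ih =>
    rw [rn, if_pos hE]
    cases w₁ with
    | nil =>
      simp only [List.nil_append, List.cons.injEq] at hw
      obtain ⟨rfl, rfl⟩ := hw
      exact rl_stack _ w a [] (t :: st) rfl hE h2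
    | cons b w₁' =>
      simp only [List.cons_append, List.cons.injEq] at hw
      exact ih w₁' hw.2
  | case4 t st a w hE ih =>
    rw [rn, if_neg hE]
    exact rl_cons (ih w₁ hw)

theorem rl_mono {w : List ℕ} {x : ℕ} (h : RL w x) : RL (rn [] w) x := by
  obtain ⟨u, v, hw, hv⟩ := h
  exact rl_input [] w x u v hw hv

/-- The bottom of the stack is the last entry of the output. -/
theorem rn_last (st w : List ℕ) (b : ℕ) (s : List ℕ) (hst : st = s ++ [b])
    (hn : (st ++ w).Nodup) : ∃ o, rn st w = o ++ [b] := by
  induction st, w using rn.induct generalizing s with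
  | case1 st => rw [rn]; exact ⟨s, hst⟩
  | case2 a w ih => simp at hst
  | case3 t st a w hE ih =>
    rw [rn, if_pos hE]
    refine ih (a :: s) (by rw [hst]; rfl) ?_
    exact (List.perm_middle (a := a) (l₁ := t :: st) (l₂ := w)).nodup_iff.1 hn
  | case4 t st a w hE ih =>
    rw [rn, if_neg hE]
    cases s with
    | nil =>
      exfalso
      simp only [List.nil_append, List.cons.injEq] at hst
      obtain ⟨rfl, rfl⟩ := hst
      have hab : t ≠ a := by
        rintro rfl
        simp at hn
      apply hE
      rcases lt_or_gt_of_ne hab with h | h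
      · left; simpa using h
      · right; simpa using h
    | cons t' s' =>
      simp only [List.cons_append, List.cons.injEq] at hst
      obtain ⟨o, ho⟩ := ih s' hst.2 ((List.nodup_cons.1 (by simpa using hn)).2)
      exact ⟨t :: o, by rw [ho]; rfl⟩

/-- Every entry of the input is pushed without a pop. -/
def Pushes : List ℕ → List ℕ → Prop
  | _, [] => True
  | st, a :: w => Ext a st ∧ Pushes (a :: st) w

/-- Either no entry is popped before the end, or the first entry of the output is neither the bottom of
the stack nor the last entry of the input. -/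
theorem rn_first (st w : List ℕ) (b : ℕ) (s : List ℕ) (hst : st = s ++ [b])
    (hn : (st ++ w).Nodup) :
    Pushes st w ∨ ∃ x o, rn st w = x :: o ∧ x ≠ b ∧ ∃ w', w ≠ [] ∧ w = w' ++ [w.getLastD 0] ∧
      x ∈ st ++ w' := by
  induction st, w using rn.induct generalizing s with
  | case1 st => left; trivial
  | case2 a w ih => simp at hst
  | case3 t st a w hE ih =>
    rw [rn, if_pos hE]
    have hn' : ((a :: t :: st) ++ w).Nodup :=
      (List.perm_middle (a := a) (l₁ := t :: st) (l₂ := w)).nodup_iff.1 hn
    rcases ih (a :: s) (by rw [hst]; rfl) hn' with h | ⟨x, o, h1, h2, w', h3, h4, h5⟩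
    · left; exact ⟨hE, h⟩
    · right
      refine ⟨x, o, h1, h2, a :: w', by simp, ?_, ?_⟩
      · obtain ⟨c, l, rfl⟩ := List.exists_cons_of_ne_nil h3
        simp only [List.cons_append, List.cons.injEq, true_and] at h4 ⊢
        simpa [List.getLastD] using h4
      · simp only [List.cons_append, List.mem_cons, List.mem_append] at h5 ⊢
        tauto
  | case4 t st a w hE ih =>
    right
    rw [rn, if_neg hE]
    refine ⟨t, _, rfl, ?_, (a :: w).dropLast, by simp, ?_, by simp⟩
    · cases s with
      | nil =>
        exfalso
        simp only [List.nil_append, List.cons.injEq] at hst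
        obtain ⟨rfl, rfl⟩ := hst
        have hab : t ≠ a := by
          rintro rfl
          simp at hn
        apply hE
        rcases lt_or_gt_of_ne hab with h | h
        · left; simpa using h
        · right; simpa using h
      | cons t' s' =>
        simp only [List.cons_append, List.cons.injEq] at hst
        obtain ⟨rfl, rfl⟩ := hst
        rintro rfl
        simp at hn
    · rw [List.getLastD_cons]
      have := List.dropLast_append_getLast (l := a :: w) (by simp)
      conv_lhs => rw [← this]
      congr 2
      rw [List.getLast_eq_getLastD]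

theorem up (w : List ℕ) : ∀ (st : List ℕ) (c : ℕ), c ∈ st → (∀ y ∈ w, c < y) → Pushes st w →
    w.Pairwise (· < ·) ∧ ∀ x ∈ st, ∀ y ∈ w, x < y := by
  induction w with
  | nil => intro st c _ _ _; simp
  | cons a w ih =>
    rintro st c hc hw ⟨hE, hP⟩
    have hE' : ∀ x ∈ st, x < a := by
      rcases hE with hE | hE
      · exact hE
      · have h1 := hE c hc
        have h2 := hw a (by simp)
        omega
    obtain ⟨h1, h2⟩ := ih (a :: st) c (List.mem_cons_of_mem _ hc)
      (fun y hy => hw y (List.mem_cons_of_mem _ hy)) hP
    refine ⟨List.pairwise_cons.2 ⟨fun y hy => h2 a (by simp) y hy, h1⟩, ?_⟩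
    intro x hx y hy
    rcases List.mem_cons.1 hy with rfl | hy
    · exact hE' x hx
    · exact h2 x (List.mem_cons_of_mem _ hx) y hy

theorem down (w : List ℕ) : ∀ (st : List ℕ) (c : ℕ), c ∈ st → (∀ y ∈ w, y < c) → Pushes st w →
    w.Pairwise (· > ·) ∧ ∀ x ∈ st, ∀ y ∈ w, x > y := by
  induction w with
  | nil => intro st c _ _ _; simp
  | cons a w ih =>
    rintro st c hc hw ⟨hE, hP⟩
    have hE' : ∀ x ∈ st, x > a := by
      rcases hE with hE | hE
      · have h1 := hE c hc
        have h2 := hw a (by simp)
        omega
      · exact hE
    obtain ⟨h1, h2⟩ := ih (a :: st) c (List.mem_cons_of_mem _ hc)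
      (fun y hy => hw y (List.mem_cons_of_mem _ hy)) hP
    refine ⟨List.pairwise_cons.2 ⟨fun y hy => h2 a (by simp) y hy, h1⟩, ?_⟩
    intro x hx y hy
    rcases List.mem_cons.1 hy with rfl | hy
    · exact hE' x hx
    · exact h2 x (List.mem_cons_of_mem _ hx) y hy

/-! ### The set of the entries which are extreme among the later ones -/

open Classical in
/-- The set of the `x` with `RL l x`. -/
noncomputable def R (l : List ℕ) : Finset ℕ := l.toFinset.filter (RL l)

theorem mem_R {l : List ℕ} {x : ℕ} : x ∈ R l ↔ RL l x := by
  classical
  unfold R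
  rw [Finset.mem_filter, List.mem_toFinset]
  constructor
  · exact fun h => h.2
  · intro h
    refine ⟨?_, h⟩
    obtain ⟨u, v, rfl, -⟩ := h
    simp

theorem R_card_le {l : List ℕ} : (R l).card ≤ l.length := by
  classical
  unfold R
  exact (Finset.card_filter_le _ _).trans l.toFinset_card_le

/-- One application of the procedure. -/
noncomputable def S (w : List ℕ) : List ℕ := rn [] w

theorem S_perm (w : List ℕ) : (S w).Perm w := rn_perm [] w

theorem R_mono (w : List ℕ) : R w ⊆ R (S w) := fun _ hx => mem_R.2 (rl_mono (mem_R.1 hx))

theorem S_cons (b : ℕ) (v : List ℕ) : S (b :: v) = rn [b] v := by rw [S, rn]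

theorem ext_of_rl {b : ℕ} {v : List ℕ} (hn : (b :: v).Nodup) (h : RL (b :: v) b) : Ext b v := by
  obtain ⟨u, v', h1, h2⟩ := h
  cases u with
  | nil =>
    simp only [List.nil_append, List.cons.injEq, true_and] at h1
    rw [h1]; exact h2
  | cons a u =>
    simp only [List.cons_append, List.cons.injEq] at h1
    exfalso
    have := (List.nodup_cons.1 hn).1
    rw [h1.2] at this
    simp at this

theorem rl_last (o : List ℕ) (b : ℕ) : RL (o ++ [b]) b := ⟨o, [], rfl, Or.inl (by simp)⟩

theorem S_last {b : ℕ} {v : List ℕ} (hn : (b :: v).Nodup) : ∃ o, S (b :: v) = o ++ [b] := by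
  rw [S_cons]
  exact rn_last [b] v b [] rfl (by simpa using hn)

theorem ext_of_eq {b : ℕ} {v : List ℕ} (hn : (b :: v).Nodup) (h : R (b :: v) = R (S (b :: v))) :
    Ext b v := by
  obtain ⟨o, ho⟩ := S_last hn
  refine ext_of_rl hn (mem_R.1 ?_)
  rw [h, ho]
  exact mem_R.2 (rl_last o b)

/-- Monotone words. -/
def Mono (w : List ℕ) : Prop := w.Pairwise (· < ·) ∨ w.Pairwise (· > ·)

theorem stall {p : List ℕ} (hn : p.Nodup) (hR : R (S (S (S p))) = R p) : Mono (S p) := by
  have h1 := R_mono p
  have h2 := R_mono (S p)
  have h3 := R_mono (S (S p))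
  have e1 : R p = R (S p) := by
    refine Finset.Subset.antisymm h1 ?_
    rw [← hR]; exact h2.trans h3
  have e2 : R (S p) = R (S (S p)) := by
    refine Finset.Subset.antisymm h2 ?_
    rw [← e1, ← hR]; exact h3
  have e3 : R (S (S p)) = R (S (S (S p))) := by
    rw [hR, ← e2, ← e1]
  cases p with
  | nil => left; rw [List.perm_nil.1 (S_perm [])]; simp
  | cons b v =>
    have hb : Ext b v := ext_of_eq hn e1
    obtain ⟨o, ho⟩ := S_last hn
    have hqp := S_perm (b :: v)
    have hqn : (S (b :: v)).Nodup := hqp.nodup_iff.2 hn
    generalize hq : S (b :: v) = q at *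
    cases q with
    | nil => left; simp
    | cons c v' =>
      have hc : Ext c v' := ext_of_eq hqn e2
      have hrp := S_perm (c :: v')
      have hrn : (S (c :: v')).Nodup := hrp.nodup_iff.2 hqn
      rcases rn_first [c] v' c [] rfl (by simpa using hqn) with hP | ⟨x, o', h4, h5, w', h6, h7, h8⟩
      · rcases hc with hc | hc
        · right
          obtain ⟨g1, g2⟩ := down v' [c] c (by simp) hc hP
          exact List.pairwise_cons.2 ⟨fun y hy => g2 c (by simp) y hy, g1⟩
        · left
          obtain ⟨g1, g2⟩ := up v' [c] c (by simp) hc hP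
          exact List.pairwise_cons.2 ⟨fun y hy => g2 c (by simp) y hy, g1⟩
      · exfalso
        rw [← S_cons] at h4
        rw [h4] at hrn hrp e3
        have hx : Ext x o' := ext_of_eq hrn e3
        have hxw : x ∈ w' := by
          rcases List.mem_append.1 h8 with h | h
          · exact absurd (by simpa using h) h5
          · exact h
        have hlast : v'.getLastD 0 = b := by
          have h9 : (c :: w') ++ [v'.getLastD 0] = o ++ [b] := by
            rw [← ho, List.cons_append, ← h7]
          exact (List.append_inj' h9 rfl).2 |> fun h => by simpa using h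
        rw [hlast] at h7
        have hbv : b ∈ v' := by rw [h7]; simp
        have hxv : x ∈ v' := by rw [h7]; simp [hxw]
        have hxb : x ≠ b := by
          rintro rfl
          have h10 : v'.Nodup := (List.nodup_cons.1 hqn).2
          rw [h7] at h10
          exact (List.disjoint_of_nodup_append h10) hxw (by simp)
        have hcb : c ≠ b := by
          rintro rfl
          exact (List.nodup_cons.1 hqn).1 hbv
        have hcv : c ∈ v := by
          have : c ∈ b :: v := hqp.subset (by simp)
          rcases List.mem_cons.1 this with h | h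
          · exact absurd h hcb
          · exact h
        have hxv2 : x ∈ v := by
          have : x ∈ b :: v := hqp.subset (by simp [hxv])
          rcases List.mem_cons.1 this with h | h
          · exact absurd h hxb
          · exact h
        have hbo : b ∈ o' := by
          have : b ∈ x :: o' := hrp.symm.subset (by simp [hbv])
          rcases List.mem_cons.1 this with h | h
          · exact absurd h.symm hxb
          · exact h
        have hco : c ∈ o' := by
          have : c ∈ x :: o' := hrp.symm.subset (by simp)
          rcases List.mem_cons.1 this with h | h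
          · exact absurd h.symm h5
          · exact h
        rcases hb with hb | hb <;> rcases hc with hc | hc <;> rcases hx with hx | hx
        all_goals
          have a1 := hb c hcv
          have a2 := hb x hxv2
          have a3 := hc b hbv
          have a4 := hc x hxv
          have a5 := hx b hbo
          have a6 := hx c hco
          omega

/-! ### Monotone words -/

theorem pushes_rn (w : List ℕ) : ∀ st, Pushes st w → rn st w = w.reverse ++ st := by
  induction w with
  | nil => intro st _; rw [rn]; simp
  | cons a w ih =>
    rintro st ⟨h1, h2⟩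
    cases st with
    | nil => rw [rn, ih _ h2]; simp
    | cons t st => rw [rn, if_pos h1, ih _ h2]; simp

theorem pushes_up (w : List ℕ) : ∀ st : List ℕ, (∀ x ∈ st, ∀ y ∈ w, x < y) → w.Pairwise (· < ·) →
    Pushes st w := by
  induction w with
  | nil => intro st _ _; trivial
  | cons a w ih =>
    intro st h1 h2
    obtain ⟨h3, h4⟩ := List.pairwise_cons.1 h2
    refine ⟨Or.inl fun x hx => h1 x hx a (by simp), ih (a :: st) ?_ h4⟩
    intro x hx y hy
    rcases List.mem_cons.1 hx with rfl | hx
    · exact h3 y hy
    · exact h1 x hx y (List.mem_cons_of_mem _ hy)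

theorem pushes_down (w : List ℕ) : ∀ st : List ℕ, (∀ x ∈ st, ∀ y ∈ w, x > y) → w.Pairwise (· > ·) →
    Pushes st w := by
  induction w with
  | nil => intro st _ _; trivial
  | cons a w ih =>
    intro st h1 h2
    obtain ⟨h3, h4⟩ := List.pairwise_cons.1 h2
    refine ⟨Or.inr fun x hx => h1 x hx a (by simp), ih (a :: st) ?_ h4⟩
    intro x hx y hy
    rcases List.mem_cons.1 hx with rfl | hx
    · exact h3 y hy
    · exact h1 x hx y (List.mem_cons_of_mem _ hy)

theorem S_mono {w : List ℕ} (h : Mono w) : S w = w.reverse := by
  have : Pushes [] w := by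
    rcases h with h | h
    · exact pushes_up w [] (by simp) h
    · exact pushes_down w [] (by simp) h
  rw [S, pushes_rn w [] this]
  simp

theorem mono_S {w : List ℕ} (h : Mono w) : Mono (S w) := by
  rw [S_mono h]
  rcases h with h | h
  · right; exact List.pairwise_reverse.2 h
  · left; exact List.pairwise_reverse.2 h

theorem mono_iter {w : List ℕ} (h : Mono w) (k : ℕ) : Mono (S^[k] w) := by
  induction k with
  | zero => exact h
  | succ k ih => rw [Function.iterate_succ_apply']; exact mono_S ih

theorem iter_perm (k : ℕ) (w : List ℕ) : (S^[k] w).Perm w := by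
  induction k with
  | zero => rfl
  | succ k ih => rw [Function.iterate_succ_apply']; exact (S_perm _).trans ih

theorem steps (k : ℕ) : ∀ p : List ℕ, p.Nodup → p.length ≤ (R p).card + k →
    Mono (S^[3 * k + 1] p) := by
  induction k with
  | zero =>
    intro p hn h
    have h1 : R (S (S (S p))) = R p := by
      have hs : R p ⊆ R (S (S (S p))) := ((R_mono p).trans (R_mono _)).trans (R_mono _)
      refine (Finset.eq_of_subset_of_card_le hs ?_).symm
      have h2 := R_card_le (l := S (S (S p)))
      have h3 : (S (S (S p))).length = p.length := (iter_perm 3 p).length_eq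
      omega
    exact stall hn h1
  | succ k ih =>
    intro p hn h
    by_cases he : R (S (S (S p))) = R p
    · have h1 := stall hn he
      have : S^[3 * (k + 1) + 1] p = S^[3 * (k + 1)] (S p) := Function.iterate_succ_apply S _ p
      rw [this]
      exact mono_iter h1 _
    · have hs : R p ⊂ R (S (S (S p))) :=
        lt_of_le_of_ne (((R_mono p).trans (R_mono _)).trans (R_mono _)) (fun h => he h.symm)
      have hc := Finset.card_lt_card hs
      have h3 : (S (S (S p))).length = p.length := (iter_perm 3 p).length_eq
      have h4 : (S (S (S p))).Nodup := (iter_perm 3 p).nodup_iff.2 hn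
      have h5 := ih (S (S (S p))) h4 (by omega)
      have : S^[3 * (k + 1) + 1] p = S^[3 * k + 1] (S^[3] p) := by
        rw [← Function.iterate_add_apply]
        congr 1
      rw [this]
      exact h5

theorem sT_iter (k : ℕ) (w : List ℕ) (hn : w.Nodup) : (sT T₁)^[k] w = S^[k] w := by
  induction k with
  | zero => rfl
  | succ k ih =>
    rw [Function.iterate_succ_apply', Function.iterate_succ_apply', ih]
    exact run_eq_rn [] _ avoids_nil (by simpa using (iter_perm k w).nodup_iff.2 hn)

theorem mono_cases {n : ℕ} {w : List ℕ} (hw : w.Perm (List.range' 1 n)) (h : Mono w) :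
    w = List.range' 1 n ∨ w = (List.range' 1 n).reverse := by
  have hr : (List.range' 1 n).Pairwise (· < ·) := List.pairwise_lt_range'
  rcases h with h | h
  · left
    exact hw.eq_of_pairwise (fun a b _ _ h1 h2 => absurd h1 (not_lt.2 (le_of_lt h2))) h hr
  · right
    refine (hw.trans (List.reverse_perm _).symm).eq_of_pairwise
      (fun a b _ _ h1 h2 => absurd h1 (not_lt.2 (le_of_lt h2))) h ?_
    exact List.pairwise_reverse.2 hr

theorem after (n : ℕ) (w : List ℕ) (hw : w.Perm (List.range' 1 n)) (k : ℕ) (hk : 3 * n ≤ k) :
    Mono (S^[k] w) := by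
  have hn : w.Nodup := hw.nodup_iff.2 List.nodup_range'
  have hlen : w.length = n := by rw [hw.length_eq]; simp
  rcases List.eq_nil_or_concat w with rfl | ⟨o, b, hob⟩
  · have : S^[k] ([] : List ℕ) = [] := List.perm_nil.1 (iter_perm k [])
    rw [this]; left; simp
  · rw [List.concat_eq_append] at hob
    subst hob
    have hb : b ∈ R (o ++ [b]) := mem_R.2 (rl_last o b)
    have hc : 1 ≤ (R (o ++ [b])).card := Finset.card_pos.2 ⟨b, hb⟩
    have hn1 : 1 ≤ n := by rw [← hlen]; simp
    have h1 := steps (n - 1) (o ++ [b]) hn (by omega)
    obtain ⟨j, rfl⟩ : ∃ j, k = j + (3 * (n - 1) + 1) := ⟨k - (3 * (n - 1) + 1), by omega⟩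
    rw [Function.iterate_add_apply]
    exact mono_iter h1 j

/-- For `T = {231, 213}`: the periodic points of `s_T` among the permutations of `1, …, n` are the
identity and its reverse, and every permutation arrives there after at most `3 n` steps. -/
theorem result (n : ℕ) (w : List ℕ) (hw : w.Perm (List.range' 1 n)) :
    ((∃ m : ℕ, 1 ≤ m ∧ (sT {[2, 3, 1], [2, 1, 3]})^[m] w = w) ↔
      w = List.range' 1 n ∨ w = (List.range' 1 n).reverse) ∧
    ∀ k : ℕ, 3 * n ≤ k → (sT {[2, 3, 1], [2, 1, 3]})^[k] w = List.range' 1 n ∨
      (sT {[2, 3, 1], [2, 1, 3]})^[k] w = (List.range' 1 n).reverse := by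
  have hn : w.Nodup := hw.nodup_iff.2 List.nodup_range'
  have key : ∀ k : ℕ, 3 * n ≤ k → (sT T₁)^[k] w = List.range' 1 n ∨
      (sT T₁)^[k] w = (List.range' 1 n).reverse := by
    intro k hk
    rw [sT_iter k w hn]
    exact mono_cases ((iter_perm k w).trans hw) (after n w hw k hk)
  refine ⟨⟨?_, ?_⟩, key⟩
  · rintro ⟨m, hm, h⟩
    have hp : Function.IsPeriodicPt (sT T₁) m w := h
    have h1 := hp.const_mul (3 * n)
    have h2 := key (3 * n * m) (Nat.le_mul_of_pos_right _ hm)
    rw [h1] at h2
    exact h2
  · intro h
    have hM : Mono w := by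
      rcases h with rfl | rfl
      · left; exact List.pairwise_lt_range'
      · right; exact List.pairwise_reverse.2 List.pairwise_lt_range'
    refine ⟨2, by norm_num, ?_⟩
    have h1 : (sT T₁)^[2] w = S^[2] w := sT_iter 2 w hn
    refine h1.trans ?_
    change S (S w) = w
    rw [S_mono (mono_S hM), S_mono hM, List.reverse_reverse]

end Pool.Agent.Results.MP_cfa423_co.OneOfTheTwoMaps
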